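import Pool.Agent.H590.NL.Stm

/-!
# JF: facts on the infimum `J` of the quadratic form
-/

set_option autoImplicit false

open MeasureTheory Filter Topology Set
open H590NL

namespace Pool.Agent.H233.NL

theorem uu_eq {m : ℕ} {κ : Type} [Fintype κ] (v : κ → V (m + 1)) (s : ℝ) (x : V m) (j : κ) :
    uu v s x j = v j 0 * s + ∑ i : Fin m, v j i.succ * x i := by
  unfold uu ip
  rw [Fin.sum_univ_succ, Fin.cons_zero]
  refine congrArg _ (Finset.sum_congr rfl fun i _ => ?_)
  rw [Fin.cons_succ]

theorem JF : S_JF := by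
  intro m κ _ v
  refine ⟨fun a ha => ?_, ?_⟩
  · have hnn : ∀ (t : ℝ) (η : V m), 0 ≤ ∑ j, a j * uu v t η j ^ 2 := fun t η =>
      Finset.sum_nonneg fun j _ => mul_nonneg (ha j) (sq_nonneg _)
    have hbdd : BddBelow (Set.range fun η : Fin m → ℚ =>
        ∑ j, a j * uu v 1 (fun i => (η i : ℝ)) j ^ 2) :=
      ⟨0, by rintro _ ⟨η, rfl⟩; exact hnn 1 _⟩
    have h0 : 0 ≤ JJ v a := Real.iInf_nonneg fun η => hnn 1 _
    have hQ : ∀ η : Fin m → ℚ, JJ v a ≤ ∑ j, a j * uu v 1 (fun i => (η i : ℝ)) j ^ 2 :=
      fun η => ciInf_le hbdd η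
    have hcont : Continuous fun η : V m => ∑ j, a j * uu v 1 η j ^ 2 := by
      have h : (fun η : V m => ∑ j, a j * uu v 1 η j ^ 2) =
          fun η : V m => ∑ j, a j * (v j 0 * 1 + ∑ i : Fin m, v j i.succ * η i) ^ 2 := by
        funext η
        refine Finset.sum_congr rfl fun j _ => ?_
        rw [uu_eq]
      rw [h]
      fun_prop
    have hdense : DenseRange (Pi.map (fun _ : Fin m => (Rat.cast : ℚ → ℝ))) :=
      DenseRange.piMap fun _ => Rat.denseRange_cast
    have hR : ∀ η : V m, JJ v a ≤ ∑ j, a j * uu v 1 η j ^ 2 := fun η =>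
      hdense.induction_on η (isClosed_le continuous_const hcont) fun q => hQ q
    refine ⟨h0, ?_, hR, ?_⟩
    · have h := hR 0
      refine h.trans (le_of_eq ?_)
      refine Finset.sum_congr rfl fun j _ => ?_
      rw [uu_eq]
      simp
    · intro t ht η
      rcases ht.eq_or_lt with h | h
      · rw [← h]
        simpa using hnn 0 η
      · have h1 := mul_le_mul_of_nonneg_left (hR (fun i => η i / t)) (sq_nonneg t)
        refine h1.trans (le_of_eq ?_)
        rw [Finset.mul_sum]
        refine Finset.sum_congr rfl fun j _ => ?_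
        have h2 : uu v t η j = t * uu v 1 (fun i => η i / t) j := by
          rw [uu_eq, uu_eq, mul_add, Finset.mul_sum]
          have h3 : ∑ i : Fin m, v j i.succ * η i = ∑ i : Fin m, t * (v j i.succ * (η i / t)) := by
            refine Finset.sum_congr rfl fun i _ => ?_
            field_simp
          rw [h3]
          ring
        rw [h2]
        ring
  · show Measurable fun a : κ → ℝ => ⨅ η : Fin m → ℚ,
      ∑ j, a j * uu v 1 (fun i => (η i : ℝ)) j ^ 2
    refine Measurable.iInf fun η => ?_
    exact (continuous_finsetSum _ fun j _ => (continuous_apply j).mul continuous_const).measurable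

end Pool.Agent.H233.NL
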